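import Pool.Agent.H20.KH.Stmts

/-! Module LI3 of project KH: the third order improved Lichnerowicz inequality. -/

set_option autoImplicit false

open MeasureTheory Set Filter Topology
open scoped ContDiff

namespace Pool.Agent.H20.KH

open Pool.Agent.H84 Pool.Agent.H84.Sym Pool.Agent.H84.Sym.P2x Pool.Agent.H19.KL
open Pool.Agent.H73.KG

variable (E : Type) [NormedAddCommGroup E] [InnerProductSpace ℝ E]
    [FiniteDimensional ℝ E] [MeasurableSpace E] [BorelSpace E]

theorem LI3_mono {U : E → ℝ} {L L' : ℝ} (h : GPC (mu U) L) (hle : L ≤ L') : GPC (mu U) L' := by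
  intro f hf hs
  refine (h f hf hs).trans (mul_le_mul_of_nonneg_right hle ?_)
  exact mul_nonneg measureReal_nonneg (integral_nonneg fun x => sq_nonneg _)

theorem li3_thm (hBAS : BASStmt E) (hSTE : STEStmt E) (hSTB : STBStmt E) : LI3Stmt E := by
  intro U t K hU ht1 hcov hK hQB
  have ht : 0 < t := by
    obtain ⟨⟨C, hC⟩, -⟩ := hU
    exact hC.pos
  set Lc : ℝ := 100 * (K / t) ^ ((1:ℝ) / 3) with hLc
  have hKt : 1 ≤ K / t := by
    rw [le_div_iff₀ ht]
    linarith
  have hr1 : 1 ≤ (K / t) ^ ((1:ℝ) / 3) := Real.one_le_rpow hKt (by norm_num)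
  have hr3 : ((K / t) ^ ((1:ℝ) / 3)) ^ 3 = K / t := by
    rw [← Real.rpow_natCast, ← Real.rpow_mul (by linarith)]
    norm_num
  have hL100 : 100 ≤ Lc := by linarith
  have hLc3 : 60 * K + 700 ≤ t * Lc ^ 3 := by
    have h1 : t * Lc ^ 3 = 1000000 * K := by
      rw [hLc, mul_pow, hr3]
      field_simp
      norm_num
    rw [h1]
    linarith
  -- one descent step
  have step : ∀ L : ℝ, Lc ≤ L → GPC (mu U) L → GPC (mu U) (L - 1 / 200) := by
    intro L hL hG
    by_contra hneg
    have hL1 : 100 ≤ L := hL100.trans hL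
    have h3 : 60 * K + 700 ≤ t * L ^ 3 := by
      refine hLc3.trans (mul_le_mul_of_nonneg_left ?_ ht.le)
      exact pow_le_pow_left₀ (by linarith) hL 3
    let b := stdOrthonormalBasis ℝ E
    have h0 := hSTB U t L K hU hcov hL1 hG hK hQB h3 hneg (Fin (Module.finrank ℝ E)) b
    have hpos : 0 < t * L ^ 2 / 2 := by positivity
    have hit : ∀ n : ℕ, ST b U L (11 / 5 - n * (t * L ^ 2 / 2)) (t * L ^ 2 / 10) (5 * K + 60) := by
      intro n
      induction n with
      | zero => simpa using h0
      | succ n ih =>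
        have h4 := (hSTE U t L K hU hcov hL1 hG hK hQB h3 (Fin (Module.finrank ℝ E)) b
          (11 / 5 - n * (t * L ^ 2 / 2)) (by
            have : 0 ≤ (n:ℝ) * (t * L ^ 2 / 2) := by positivity
            linarith) ih).2
        have h5 : 11 / 5 - (n:ℝ) * (t * L ^ 2 / 2) - t * L ^ 2 / 2 =
            11 / 5 - ((n + 1 : ℕ):ℝ) * (t * L ^ 2 / 2) := by
          push_cast
          ring
        rw [h5] at h4
        exact h4
    obtain ⟨n, hn⟩ := exists_nat_gt ((11 / 5) / (t * L ^ 2 / 2))
    rw [div_lt_iff₀ hpos] at hn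
    have h6 := (hSTE U t L K hU hcov hL1 hG hK hQB h3 (Fin (Module.finrank ℝ E)) b
      (11 / 5 - n * (t * L ^ 2 / 2)) (by
        have : 0 ≤ (n:ℝ) * (t * L ^ 2 / 2) := by positivity
        linarith) (hit n)).1
    linarith
  -- descend from a large constant
  have h0 : GPC (mu U) (1 / t) := hBAS.2.1 U t hU
  have hdesc : ∀ n : ℕ, GPC (mu U) (max Lc (1 / t - n * (1 / 200))) := by
    intro n
    induction n with
    | zero =>
      refine LI3_mono E h0 ?_
      simp
    | succ n ih =>
      refine LI3_mono E (step _ (le_max_left _ _) ih) ?_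
      push_cast
      rcases max_cases Lc (1 / t - (n:ℝ) * (1 / 200)) with h | h
      · rw [h.1]
        exact le_trans (by linarith) (le_max_left _ _)
      · rw [h.1]
        exact le_trans (by linarith) (le_max_right _ _)
  obtain ⟨n, hn⟩ := exists_nat_gt ((1 / t) / (1 / 200))
  rw [div_lt_iff₀ (by norm_num)] at hn
  have h7 := hdesc n
  rw [max_eq_left (by linarith)] at h7
  exact h7

end Pool.Agent.H20.KH
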