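import Pool.Agent.H20.KH.Stmts

/-! Module STB of project KH: the start of the iteration. -/

set_option autoImplicit false
set_option linter.unusedSectionVars false

open MeasureTheory Set Filter Topology
open scoped ContDiff

namespace Pool.Agent.H20.KH

open Pool.Agent.H84 Pool.Agent.H84.Sym Pool.Agent.H84.Sym.P2x Pool.Agent.H19.KL
open Pool.Agent.H73.KG

variable (E : Type) [NormedAddCommGroup E] [InnerProductSpace ℝ E]
    [FiniteDimensional ℝ E] [MeasurableSpace E] [BorelSpace E]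

section sums

variable {E}
variable {ι κ : Type} [Fintype ι] [Fintype κ]

theorem STB_tst_D {u : E → ℝ} (hu : Tst u) (e : E) : Tst (D e u) := by
  refine ⟨?_, ?_⟩
  · unfold D
    exact (hu.1.fderiv_right (m := ∞) (by simp)).clm_apply contDiff_const
  · unfold D
    exact (hu.2.fderiv (𝕜 := ℝ)).comp_left (g := fun ℓ : E →L[ℝ] ℝ => ℓ e) (by simp)

theorem STB_gr_cs {F : E → ℝ} (hF : Continuous F) (hc : HasCompactSupport F) : Gr F := by
  obtain ⟨M, hM⟩ := hF.bounded_above_of_compact_support hc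
  exact ⟨M, 0, fun x => by simpa using hM x⟩

theorem STB_reg {f : E → ℝ} (hf : ContDiff ℝ 1 f) (hc : HasCompactSupport f) :
    ContDiff ℝ 1 f ∧ Gr f ∧ Gr (fun x => ‖fderiv ℝ f x‖) := by
  refine ⟨hf, STB_gr_cs hf.continuous hc, STB_gr_cs ?_ ?_⟩
  · exact (hf.continuous_fderiv (by norm_num)).norm
  · exact (hc.fderiv (𝕜 := ℝ)).norm

/-- sum of the variances of the partial derivatives -/
theorem STB_cv {U : E → ℝ} {t : ℝ} (hU : PP U t) (b : OrthonormalBasis ι ℝ E)
    {w : κ → E → ℝ} (hw : ∀ I, Tst (w I)) :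
    ∑ J : ι × κ, cv U (D (b J.1) (w J.2)) (D (b J.1) (w J.2)) = YY U w - MM b U w := by
  obtain ⟨⟨C, hC⟩, hp⟩ := hU
  rw [Fintype.sum_prod_type, Finset.sum_comm]
  unfold YY MM
  rw [← Finset.sum_sub_distrib]
  refine Finset.sum_congr rfl fun I _ => ?_
  unfold Pool.Agent.H73.KG.cv
  rw [Finset.sum_sub_distrib]
  have hi : ∀ i ∈ (Finset.univ : Finset ι), Integrable
      (fun x => D (b i) (w I) x * D (b i) (w I) x) (mu U) := by
    intro i _
    have hd := STB_tst_D (hw I) (b i)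
    have hg : GC (D (b i) (w I)) := ⟨hd.1.continuous, STB_gr_cs hd.1.continuous hd.2⟩
    exact (hg.mul hg).integrable hC
  rw [← integral_finsetSum _ hi]
  congr 1
  · refine integral_congr_ae (Eventually.of_forall fun x => ?_)
    simp only
    rw [nsq_clm b]
    refine Finset.sum_congr rfl fun i _ => ?_
    rw [sq]
    rfl
  · refine Finset.sum_congr rfl fun i _ => ?_
    rw [sq]

theorem STB_zz {U : E → ℝ} {t : ℝ} (hU : PP U t) (b : OrthonormalBasis ι ℝ E)
    {w : κ → E → ℝ} (hw : ∀ I, Tst (w I)) :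
    ∑ J : ι × κ, ∫ x, ‖fderiv ℝ (D (b J.1) (w J.2)) x‖ ^ 2 ∂(mu U) = ZZ b U w := by
  obtain ⟨⟨C, hC⟩, hp⟩ := hU
  rw [Fintype.sum_prod_type, Finset.sum_comm]
  unfold ZZ
  refine Finset.sum_congr rfl fun I _ => ?_
  rw [integral_finsetSum]
  intro i _
  have hd := STB_tst_D (hw I) (b i)
  have h1 : Continuous (fun x => ‖fderiv ℝ (D (b i) (w I)) x‖) :=
    (hd.1.continuous_fderiv (by simp)).norm
  have hg : GC (fun x => ‖fderiv ℝ (D (b i) (w I)) x‖) :=
    ⟨h1, STB_gr_cs h1 (hd.2.fderiv (𝕜 := ℝ)).norm⟩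
  exact hg.sq.integrable hC

theorem STB_tt (U : E → ℝ) (b : OrthonormalBasis ι ℝ E) (w : κ → E → ℝ) :
    ∑ J : ι × κ, ∑ j, (cv U (li (b j)) (D (b J.1) (w J.2))) ^ 2 = TT b U w := by
  rw [Fintype.sum_prod_type, Finset.sum_comm]
  rfl

end sums

/-- one step from a family of test functions to the family of its partial derivatives -/
theorem STB_common (hKBB : KBBStmt E) (hSTP : STPStmt E) (hTCY : TCYStmt E)
    {U : E → ℝ} {t L K : ℝ} (hU : PP U t) (hcov : CovLe U 1) (hL : 100 ≤ L)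
    (hG : GPC (mu U) L) (hK : 1 ≤ K) (hQB : QB U K)
    {ι κ : Type} [Fintype ι] [Fintype κ] (b : OrthonormalBasis ι ℝ E) (w : κ → E → ℝ)
    (hw : ∀ I, Tst (w I)) (β ε : ℝ) (hε : 0 < ε) (hε1 : ε ≤ 1 / 100) (_hβ0 : 0 ≤ β)
    (hβ : β ≤ 16 / 5) (hX : 0 < XX b U w) (hY : (L - β) * XX b U w ≤ YY U w - MM b U w) :
    ∃ v : ι × κ → E → ℝ, (∀ J, Tst (v J)) ∧ 0 < XX b U v ∧
      XX b U v ≤ (YY U w - MM b U w) + ε * XX b U w ∧
      (YY U w - MM b U w) - ε * XX b U w ≤ XX b U v ∧
      (L - β - ε) * XX b U v ≤ YY U v ∧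
      TT b U v ≤ (5 * K + 60) * XX b U v ∧
      MM b U v ≤ TT b U w + ε * XX b U w := by
  have ht : 0 < t := by
    obtain ⟨⟨C, hC⟩, -⟩ := hU
    exact hC.pos
  obtain ⟨k1, k2, k3, k4, k5, k6, k7, k8, k9⟩ :=
    hKBB U t L hU hcov (by linarith) hG ι κ b w hw
  set X := XX b U w with hXd
  set Y := YY U w with hYd
  set M := MM b U w with hMd
  set Z := ZZ b U w with hZd
  set S := Y - M with hSd
  set δ := ε / 2 with hδ
  set η := min (δ * X) (δ * X ^ 2) with hη
  have hδ0 : 0 < δ := by positivity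
  have hη0 : 0 < η := lt_min (by positivity) (by positivity)
  have hη1 : η ≤ δ * X := min_le_left _ _
  have hη2 : η ≤ δ * X ^ 2 := min_le_right _ _
  obtain ⟨v, hv, s1, s2, s3, s4⟩ := hSTP U t L hU ι (ι × κ) b
    (fun J => D (b J.1) (w J.2)) (fun J => STB_reg
      ((STB_tst_D (hw J.2) (b J.1)).1.of_le (by simp)) (STB_tst_D (hw J.2) (b J.1)).2) η hη0
  rw [STB_cv hU b hw] at s1 s2 s3
  rw [STB_zz hU b hw] at s2 s3
  rw [STB_tt] at s4
  obtain ⟨v1, v2, v3, v4, v5, v6, v7, v8, v9⟩ :=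
    hKBB U t L hU hcov (by linarith) hG ι (ι × κ) b v hv
  set X' := XX b U v with hX'd
  set Y' := YY U v with hY'd
  rw [← hYd, ← hMd, ← hSd] at s1 s2 s3
  rw [← hZd] at s2 s3
  have a1 := abs_le.1 s1
  set c := L - β with hc
  have hc0 : 96 ≤ c := by rw [hc]; linarith
  have hS0 : c * X ≤ S := hY
  have hXZ : Z ≤ X := by
    have := mul_nonneg ht.le k6
    linarith
  have hX'1 : X' ≤ S + δ * X := by linarith [a1.2]
  have hX'2 : S - δ * X ≤ X' := by linarith [a1.1]
  have hX'0 : 0 < X' := by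
    have h1 : 0 < (c - δ) * X := mul_pos (by linarith) hX
    have h2 : (c - δ) * X = c * X - δ * X := by ring
    linarith
  have hSp : 0 < S := lt_of_lt_of_le (mul_pos (by linarith) hX) hS0
  -- lower bound for Y'
  have hY'1 : c * S - δ * X ≤ Y' := by
    have h0 : Z * Y' ≤ X * Y' := mul_le_mul_of_nonneg_right hXZ v6
    have h1 : S ^ 2 ≤ X * Y' + η := by linarith
    have h2 : X * (c * S - δ * X) ≤ X * Y' := by
      have h3 : c * X * S ≤ S * S := mul_le_mul_of_nonneg_right hS0 hSp.le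
      have h4 : X * (c * S - δ * X) = c * X * S - δ * X ^ 2 := by ring
      rw [h4]
      linarith
    exact le_of_mul_le_mul_left h2 hX
  have hA : (c - ε) * X' ≤ Y' := by
    refine le_trans (mul_le_mul_of_nonneg_left hX'1 (by linarith)) (le_trans ?_ hY'1)
    have h1 : (c - ε) * (S + δ * X) = c * S - ε * S + (c - ε) * δ * X := by ring
    rw [h1]
    have h2 : ε * (c * X) ≤ ε * S := mul_le_mul_of_nonneg_left hS0 hε.le
    have h3 : (c - ε) * δ * X + δ * X ≤ ε * (c * X) := by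
      have h4 : (c - ε) * δ + δ ≤ ε * c := by
        have h5 : ε * ((c - ε + 1) / 2) ≤ ε * c := mul_le_mul_of_nonneg_left (by linarith) hε.le
        rw [hδ]
        linarith
      calc (c - ε) * δ * X + δ * X = ((c - ε) * δ + δ) * X := by ring
        _ ≤ (ε * c) * X := mul_le_mul_of_nonneg_right h4 hX.le
        _ = _ := by ring
    linarith
  -- the bound for the residue
  have hR : L ^ 2 * Z - 2 * L * S + Y' + η ≤ 67 / 20 * X' := by
    have h1 : Y' ≤ L * (S + δ * X) := v2.trans (mul_le_mul_of_nonneg_left hX'1 (by linarith))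
    have h2 : L ^ 2 * Z ≤ L ^ 2 * X := mul_le_mul_of_nonneg_left hXZ (by positivity)
    have h3 : L * (c * X) ≤ L * S := mul_le_mul_of_nonneg_left hS0 (by linarith)
    have h4 : L ^ 2 * Z - 2 * L * S + Y' + η ≤ (L * β + (L + 1) * δ) * X := by
      have h5 : L * (c * X) = L ^ 2 * X - L * β * X := by rw [hc]; ring
      have h6 : L * (S + δ * X) = L * S + L * (δ * X) := by ring
      have h7 : (L * β + (L + 1) * δ) * X = L * β * X + L * (δ * X) + δ * X := by ring
      have h8 : 2 * L * S = 2 * (L * S) := by ring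
      rw [h7, h8]
      linarith
    have h5 : (c - δ) * X ≤ X' := by
      have : (c - δ) * X = c * X - δ * X := by ring
      linarith
    have h6 : (L * β + (L + 1) * δ) * X ≤ 67 / 20 * ((c - δ) * X) := by
      have h7 : L * β + (L + 1) * δ ≤ 67 / 20 * (c - δ) := by
        have h8 : L * β ≤ L * (16 / 5) := mul_le_mul_of_nonneg_left hβ (by linarith)
        have h9 : (L + 1) * δ ≤ (L + 1) * (1 / 200) :=
          mul_le_mul_of_nonneg_left (by rw [hδ]; linarith) (by linarith)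
        have h10 : δ ≤ 1 / 200 := by rw [hδ]; linarith
        rw [hc]
        linarith
      calc (L * β + (L + 1) * δ) * X ≤ (67 / 20 * (c - δ)) * X :=
            mul_le_mul_of_nonneg_right h7 hX.le
        _ = _ := by ring
    linarith
  have hT : TT b U v ≤ (5 * K + 60) * X' := by
    have h1 := hTCY U t L K hU hcov (by linarith) hQB ι κ b w v hw hv (67 / 20 * X')
      (s3.trans hR)
    refine h1.trans ?_
    have h2 : (Real.sqrt (K * X') + 2 * Real.sqrt (67 / 20 * X')) ^ 2 ≤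
        2 * (K * X') + 8 * (67 / 20 * X') := by
      have h3 := Real.sq_sqrt (show 0 ≤ K * X' by positivity)
      have h4 := Real.sq_sqrt (show 0 ≤ 67 / 20 * X' by positivity)
      nlinarith [sq_nonneg (Real.sqrt (K * X') - 2 * Real.sqrt (67 / 20 * X'))]
    have h5 : X' ≤ K * X' := le_mul_of_one_le_left hX'0.le hK
    have h6 : (5 * K + 60) * X' = 5 * (K * X') + 60 * X' := by ring
    rw [h6]
    linarith
  refine ⟨v, hv, hX'0, ?_, ?_, ?_, hT, ?_⟩
  · have : δ * X ≤ ε * X := mul_le_mul_of_nonneg_right (by rw [hδ]; linarith) hX.le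
    linarith
  · have : δ * X ≤ ε * X := mul_le_mul_of_nonneg_right (by rw [hδ]; linarith) hX.le
    linarith
  · exact hA
  · have : δ * X ≤ ε * X := mul_le_mul_of_nonneg_right (by rw [hδ]; linarith) hX.le
    linarith

theorem stb_thm (hKBB : KBBStmt E) (hSTP : STPStmt E) (hTCY : TCYStmt E) : STBStmt E := by
  intro U t L K hU hcov hL hG hK hQB hLK hneg ι _ b
  have hUt : 0 < t := by
    obtain ⟨⟨C, hC⟩, -⟩ := hU
    exact hC.pos
  have hprob : IsProbabilityMeasure (mu U) := hU.2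
  -- a function for which the Poincare inequality with the smaller constant fails
  unfold GPC at hneg
  push Not at hneg
  obtain ⟨f, hf, hfc, hlt⟩ := hneg
  have hM1 : (mu U).real univ = 1 := by simp
  have hGf := hG f hf hfc
  rw [hM1, one_mul, one_mul] at hlt hGf
  set S1 := ∫ x, ‖fderiv ℝ f x‖ ^ 2 ∂(mu U) with hS1
  have hcvf : cv U f f = (∫ x, f x ^ 2 ∂(mu U)) - (∫ x, f x ∂(mu U)) ^ 2 := by
    unfold Pool.Agent.H73.KG.cv
    rw [sq (∫ x, f x ∂(mu U))]
    congr 2
    ext x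
    rw [sq]
  rw [← hcvf] at hlt hGf
  set S := cv U f f with hS
  have hS1n : 0 ≤ S1 := integral_nonneg fun x => sq_nonneg _
  have hS1p : 0 < S1 := by
    rcases hS1n.eq_or_lt with h | h
    · rw [← h] at hlt hGf
      linarith
    · exact h
  have hSp : 0 < S := lt_trans (mul_pos (by linarith) hS1p) hlt
  set e0 := 1 / (400 * L) with he0
  have he0p : 0 < e0 := by positivity
  have he0L : e0 * L = 1 / 400 := by rw [he0]; field_simp
  set η := min (e0 * S) (e0 * S ^ 2) with hη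
  have hη0 : 0 < η := lt_min (by positivity) (by positivity)
  have hη1 : η ≤ e0 * S := min_le_left _ _
  have hη2 : η ≤ e0 * S ^ 2 := min_le_right _ _
  obtain ⟨w0, hw0, s1, s2, s3, s4⟩ := hSTP U t L hU ι Unit b (fun _ => f)
    (fun _ => STB_reg hf hfc) η hη0
  simp only [Finset.univ_unique, Finset.sum_singleton] at s1 s2
  rw [← hS] at s1 s2
  rw [← hS1] at s2
  obtain ⟨k1, k2, k3, k4, k5, k6, k7, k8, k9⟩ :=
    hKBB U t L hU hcov (by linarith) hG ι Unit b w0 hw0
  have a1 := abs_le.1 s1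
  have he0s : e0 ≤ 1 / 40000 := by
    rw [he0]
    apply one_div_le_one_div_of_le (by norm_num)
    linarith
  have hX0 : 0 < XX b U w0 := by
    have : e0 * S ≤ 1 / 40000 * S := mul_le_mul_of_nonneg_right he0s hSp.le
    linarith [a1.1]
  have hY0 : (L - 1 / 100) * XX b U w0 ≤ YY U w0 := by
    have h1 : XX b U w0 ≤ S + e0 * S := by linarith [a1.2]
    have h2 : (L - 1 / 200) * (S - e0 * S) ≤ YY U w0 := by
      -- S1 * Y0 ≥ S ^ 2 - η
      have h3 : S ^ 2 - η ≤ S1 * YY U w0 := by linarith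
      have h4 : (L - 1 / 200) * S1 * YY U w0 ≤ S * YY U w0 :=
        mul_le_mul_of_nonneg_right hlt.le k6
      have h5 : (L - 1 / 200) * (S ^ 2 - η) ≤ (L - 1 / 200) * (S1 * YY U w0) :=
        mul_le_mul_of_nonneg_left h3 (by linarith)
      have h6 : (L - 1 / 200) * (S ^ 2 - e0 * S ^ 2) ≤ (L - 1 / 200) * (S ^ 2 - η) :=
        mul_le_mul_of_nonneg_left (by linarith) (by linarith)
      have h7 : S * ((L - 1 / 200) * (S - e0 * S)) ≤ S * YY U w0 := by
        calc S * ((L - 1 / 200) * (S - e0 * S)) = (L - 1 / 200) * (S ^ 2 - e0 * S ^ 2) := by ring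
          _ ≤ _ := h6.trans (h5.trans (by linarith))
      exact le_of_mul_le_mul_left h7 hSp
    refine le_trans (mul_le_mul_of_nonneg_left h1 (by linarith)) (le_trans ?_ h2)
    have h8 : (L - 1 / 200) * (S - e0 * S) - (L - 1 / 100) * (S + e0 * S) =
        S * (1 / 200 - 2 * (e0 * L) + 3 / 200 * e0) := by ring
    rw [he0L] at h8
    have h9 : 0 ≤ S * (1 / 200 - 2 * (1 / 400) + 3 / 200 * e0) :=
      mul_nonneg hSp.le (by linarith)
    linarith
  -- second family
  obtain ⟨w1, hw1, x1, u1, l1, y1, t1, m1⟩ := STB_common E hKBB hSTP hTCY hU hcov hL hG hK hQB b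
    w0 hw0 (101 / 100) (1 / 100) (by norm_num) le_rfl (by norm_num) (by norm_num) hX0
    (by linarith)
  obtain ⟨q1, q2, q3, q4, q5, q6, q7, q8, q9⟩ :=
    hKBB U t L hU hcov (by linarith) hG ι (ι × Unit) b w1 hw1
  -- third family
  obtain ⟨w2, hw2, x2, u2, l2, y2, t2, m2⟩ := STB_common E hKBB hSTP hTCY hU hcov hL hG hK hQB b
    w1 hw1 (101 / 50) (1 / 100) (by norm_num) le_rfl (by norm_num) (by norm_num) x1
    (by linarith)
  refine ⟨ι × (ι × Unit), inferInstance, w2, hw2, x2, ?_, ?_, t2⟩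
  · refine le_trans (mul_le_mul_of_nonneg_right ?_ x2.le) y2
    linarith
  · -- mean gradients
    have h1 : MM b U w2 ≤ (5 * K + 60 + 1 / 100) * XX b U w1 := by linarith
    have h2 : (L - 203 / 100) * XX b U w1 ≤ XX b U w2 := by linarith
    have h3 : 97 / 100 * L * XX b U w1 ≤ XX b U w2 :=
      le_trans (mul_le_mul_of_nonneg_right (by linarith) x1.le) h2
    have h4 : t * L ^ 2 / 10 * (97 / 100 * L * XX b U w1) ≤ t * L ^ 2 / 10 * XX b U w2 :=
      mul_le_mul_of_nonneg_left h3 (by positivity)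
    refine h1.trans (le_trans ?_ h4)
    have h5 : t * L ^ 2 / 10 * (97 / 100 * L * XX b U w1) =
        97 / 1000 * (t * L ^ 3) * XX b U w1 := by ring
    rw [h5]
    exact mul_le_mul_of_nonneg_right (by linarith) x1.le

end Pool.Agent.H20.KH
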